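import Pool.Agent.Q38.GF.Special

/-!
# The dimension count at a special point
-/

open MvPolynomial

namespace Pool.Agent.Q38.GF

variable {K : Type*} [Field K] {r : ℕ} {U : Type*}

/-- The exponents in `r` variables of degree at most `s`. -/
noncomputable def expLe (r s : ℕ) : Finset (Fin r →₀ ℕ) :=
  (Finset.range (s + 1)).biUnion fun i => (Finset.univ : Finset (Fin r)).finsuppAntidiag i

lemma mem_finsuppAntidiag_univ {ι : Type*} [Fintype ι] [DecidableEq ι] (i : ℕ) (γ : ι →₀ ℕ) :
    γ ∈ (Finset.univ : Finset ι).finsuppAntidiag i ↔ γ.degree = i := by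
  rw [Finset.mem_finsuppAntidiag]
  simp [Finsupp.degree_eq_sum]

lemma mem_expLe (r s : ℕ) (γ : Fin r →₀ ℕ) : γ ∈ expLe r s ↔ γ.degree ≤ s := by
  simp only [expLe, Finset.mem_biUnion, Finset.mem_range, mem_finsuppAntidiag_univ]
  constructor
  · rintro ⟨i, hi, h⟩; omega
  · intro h; exact ⟨_, Nat.lt_succ_of_le h, rfl⟩

lemma card_expLe (r s : ℕ) : (expLe r s).card = (r + s).choose s := by
  have h1 : (expLe r s).card = ∑ i ∈ Finset.range (s + 1), (r + i - 1).choose i := by
    rw [expLe, Finset.card_biUnion]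
    · apply Finset.sum_congr rfl
      intro i _
      rw [Finset.card_finsuppAntidiag_nat_eq_choose]
      simp
    · intro i _ j _ hij
      rw [Function.onFun, Finset.disjoint_left]
      intro γ h1 h2
      rw [mem_finsuppAntidiag_univ] at h1 h2
      exact hij (h1.symm.trans h2)
  rw [h1]
  clear h1
  induction s with
  | zero => simp
  | succ s ih =>
    rw [Finset.sum_range_succ, ih]
    have : r + (s + 1) - 1 = r + s := by omega
    rw [this, ← Nat.choose_succ_succ]
    rfl

lemma sup_pow_le {R : Type*} [CommRing R] (A B : Ideal R) (k : ℕ) : (A ⊔ B) ^ k ≤ A ^ k ⊔ B := by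
  induction k with
  | zero => simp
  | succ k ih =>
    have h1 : (A ⊔ B) ^ (k + 1) ≤ (A ^ k ⊔ B) * (A ⊔ B) := by
      rw [pow_succ]
      exact Ideal.mul_mono_left ih
    refine h1.trans ?_
    rw [Ideal.mul_le]
    intro x hx y hy
    obtain ⟨a, ha, b, hb, rfl⟩ := Submodule.mem_sup.1 hx
    obtain ⟨a', ha', b', hb', rfl⟩ := Submodule.mem_sup.1 hy
    have e : (a + b) * (a' + b') = a * a' + (a * b' + (a' + b') * b) := by ring
    rw [e]
    refine Submodule.add_mem_sup ?_ ?_
    · rw [pow_succ]; exact Ideal.mul_mem_mul ha ha'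
    · exact B.add_mem (B.mul_mem_left _ hb') (B.mul_mem_left _ hb)

/-- Homogeneous components of a multiple of a homogeneous polynomial. -/
lemma homogeneousComponent_mul_of_isHomogeneous {σ : Type*} {g : MvPolynomial σ K} {m : ℕ}
    (hg : g.IsHomogeneous m) (u : MvPolynomial σ K) (e : ℕ) :
    homogeneousComponent (m + e) (g * u) = g * homogeneousComponent e u := by
  conv_lhs => rw [← sum_homogeneousComponent u, Finset.mul_sum, map_sum]
  rw [Finset.sum_congr rfl (g := fun i => if i = e then g * homogeneousComponent e u else 0)]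
  · rw [Finset.sum_ite_eq']
    split_ifs with h
    · rfl
    · rw [homogeneousComponent_eq_zero, mul_zero]
      simpa using h
  · intro i _
    have h1 : (g * homogeneousComponent i u).IsHomogeneous (m + i) :=
      hg.mul (homogeneousComponent_isHomogeneous i u)
    rw [homogeneousComponent_of_mem h1]
    by_cases h : i = e
    · subst h; simp
    · have h2 : ¬ (m + e = m + i) := by omega
      have h4 : ¬ (e = i) := fun h' => h h'.symm
      simp [h, h4]

/-- Truncation: the coefficients in degrees at most `s`. -/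
noncomputable def T (K : Type*) [Field K] (r s : ℕ) :
    MvPolynomial (Fin r) K →ₗ[K] (expLe r s → K) where
  toFun P γ := coeff γ.1 P
  map_add' P Q := by ext; simp
  map_smul' c P := by ext; simp

lemma T_eq_zero (s : ℕ) (P : MvPolynomial (Fin r) K) (hP : P ∈ idealOfVars (Fin r) K ^ (s + 1)) :
    T K r s P = 0 := by
  ext γ
  rw [mem_pow_idealOfVars_iff'] at hP
  exact hP _ (Nat.lt_succ_of_le ((mem_expLe r s γ.1).1 γ.2))

lemma sub_trunc_mem (s : ℕ) (P : MvPolynomial (Fin r) K) :
    P - ∑ γ ∈ expLe r s, monomial γ (coeff γ P) ∈ idealOfVars (Fin r) K ^ (s + 1) := by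
  rw [mem_pow_idealOfVars_iff']
  intro x hx
  have hx' : x ∈ expLe r s := (mem_expLe r s x).2 (Nat.le_of_lt_succ hx)
  rw [coeff_sub, coeff_sum]
  simp only [coeff_monomial]
  rw [Finset.sum_ite_eq' (expLe r s) x]
  simp [hx']

lemma T_mul_mem (s : ℕ) (g P : MvPolynomial (Fin r) K) (hg : g ∈ idealOfVars (Fin r) K ^ 2)
    (S : Submodule K (expLe r s → K))
    (hS : ∀ γ ∈ expLe r (s - 2), T K r s (g * monomial γ 1) ∈ S) : T K r s (g * P) ∈ S := by
  have h1 : T K r s (g * P) = T K r s (g * ∑ γ ∈ expLe r (s - 2), monomial γ (coeff γ P)) := by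
    rw [← sub_eq_zero, ← map_sub, ← mul_sub]
    apply T_eq_zero
    have h2 := Ideal.mul_mem_mul hg (sub_trunc_mem (s - 2) P)
    rw [← pow_add] at h2
    exact Ideal.pow_le_pow_right (by omega) h2
  rw [h1, Finset.mul_sum, map_sum]
  refine Submodule.sum_mem _ fun γ hγ => ?_
  have h3 : g * monomial γ (coeff γ P) = coeff γ P • (g * monomial γ 1) := by
    rw [← mul_smul_comm, smul_monomial, smul_eq_mul, mul_one]
  rw [h3, map_smul]
  exact Submodule.smul_mem _ _ (hS γ hγ)

/-- The monomials in the variables `a : Fin r` of degree `≤ D`, homogenised. -/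
noncomputable def hom (U : Type*) (D : ℕ) (γ : Fin r →₀ ℕ) :
    MvPolynomial (Option (Fin r ⊕ U)) K :=
  X none ^ (D - γ.degree) * ∏ a : Fin r, X (some (Sum.inl a)) ^ γ a

lemma hom_isHomogeneous (D : ℕ) (γ : Fin r →₀ ℕ) (h : γ.degree ≤ D) :
    (hom (K := K) U D γ).IsHomogeneous D := by
  have h1 : ((∏ a : Fin r, X (some (Sum.inl a)) ^ γ a :
      MvPolynomial (Option (Fin r ⊕ U)) K)).IsHomogeneous (∑ a : Fin r, γ a) := by
    apply IsHomogeneous.prod
    intro a _
    have := (isHomogeneous_X K (some (Sum.inl a) : Option (Fin r ⊕ U))).pow (γ a)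
    simpa using this
  have h2 := (isHomogeneous_X K (none : Option (Fin r ⊕ U))).pow (D - γ.degree)
  rw [one_mul] at h2
  have h3 := h2.mul h1
  rw [← Finsupp.degree_eq_sum, Nat.sub_add_cancel h] at h3
  exact h3

lemma L_hom (ψ : U → MvPolynomial (Fin r) K) (D : ℕ) (γ : Fin r →₀ ℕ) :
    L ψ (hom U D γ) = monomial γ 1 := by
  rw [hom, map_mul, map_pow, L_none, one_pow, one_mul, map_prod]
  simp only [map_pow, L_inl]
  rw [monomial_eq, map_one, one_mul, Finsupp.prod_fintype]
  simp

/-- A tuple of forms of degree `d` in normal form at a point where the Jacobian matrix has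
corank `r` (the point where all variables but `X none` vanish). -/
structure Special (d : ℕ)
    (f : Option (U ⊕ Fin (r + 1)) → MvPolynomial (Option (Fin r ⊕ U)) K) : Prop where
  homog : ∀ w, (f w).IsHomogeneous d
  lin : ∀ u, f (some (Sum.inl u)) - X none ^ (d - 1) * X (some (Sum.inr u)) ∈ J K r U ^ 2
  sq : ∀ t, f (some (Sum.inr t)) ∈ J K r U ^ 2

attribute [local instance] MvPolynomial.gradedAlgebra in
lemma component_mem_span {σ ι : Type*} (g : ι → MvPolynomial σ K) (d : ℕ)
    (hg : ∀ i, (g i).IsHomogeneous d) (v : MvPolynomial σ K) (hv : v ∈ Ideal.span (Set.range g))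
    (D : ℕ) : homogeneousComponent D v ∈ Ideal.span (Set.range g) := by
  refine homogeneousComponent_mem_of_mem ?_ hv D
  apply Ideal.homogeneous_span
  rintro _ ⟨i, rfl⟩
  exact ⟨d, hg i⟩

theorem special_count [Fintype U] [DecidableEq U] (d k e s : ℕ)
    (f : Option (U ⊕ Fin (r + 1)) → MvPolynomial (Option (Fin r ⊕ U)) K) (hf : Special d f)
    (hs : s ≤ d * k + e)
    (good : ∀ P : MvPolynomial (Option (Fin r ⊕ U)) K, P.IsHomogeneous (d * k + e) →
      P ∈ Ideal.span (Set.range f) ^ k) :
    (r + s).choose s ≤ ((Finset.univ : Finset (Option (Fin r ⊕ U))).finsuppAntidiag e).card +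
      (r + 1) * (r + (s - 2)).choose (s - 2) := by
  classical
  obtain ⟨ψ, hψ, hψ2⟩ := exists_psi
    (fun u => f (some (Sum.inl u)) - X none ^ (d - 1) * X (some (Sum.inr u))) hf.lin (s + 1)
  set g : Fin (r + 1) → MvPolynomial (Fin r) K := fun t => L ψ (f (some (Sum.inr t))) with hg
  have hg2 : ∀ t, g t ∈ idealOfVars (Fin r) K ^ 2 := fun t => L_mem_sq ψ hψ _ (hf.sq t)
  have hlin : ∀ u, L ψ (f (some (Sum.inl u))) ∈ idealOfVars (Fin r) K ^ (s + 1) := by
    intro u
    have := hψ2 u
    simpa using this
  set B := (Finset.univ : Finset (Option (Fin r ⊕ U))).finsuppAntidiag e with hB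
  set G := L ψ (f none ^ k) with hG
  let b : B ⊕ (Fin (r + 1) × expLe r (s - 2)) → (expLe r s → K) := fun i => match i with
    | Sum.inl β => T K r s (G * L ψ (monomial β.1 1))
    | Sum.inr (t, γ) => T K r s (g t * monomial γ.1 1)
  have hspan : (⊤ : Submodule K (expLe r s → K)) ≤ Submodule.span K (Set.range b) := by
    have h1 : ∀ γ ∈ expLe r s, T K r s (monomial γ 1) ∈ Submodule.span K (Set.range b) := by
      intro γ hγ
      rw [mem_expLe] at hγ
      have hM := good (hom U (d * k + e) γ) (hom_isHomogeneous _ _ (hγ.trans hs))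
      have hI : Ideal.span (Set.range f) ≤
          Ideal.span {f none} ⊔ Ideal.span (Set.range fun w : U ⊕ Fin (r + 1) => f (some w)) := by
        rw [Ideal.span_le]
        rintro _ ⟨w, rfl⟩
        rcases w with _ | w
        · exact Ideal.mem_sup_left (Ideal.subset_span rfl)
        · exact Ideal.mem_sup_right (Ideal.subset_span ⟨w, rfl⟩)
      have hM2 := sup_pow_le _ _ k (Ideal.pow_right_mono hI k hM)
      rw [Ideal.span_singleton_pow] at hM2
      obtain ⟨a, ha, v, hv, hav⟩ := Submodule.mem_sup.1 hM2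
      obtain ⟨u, rfl⟩ := Ideal.mem_span_singleton'.1 ha
      have h2 : hom U (d * k + e) γ = f none ^ k * homogeneousComponent e u +
          homogeneousComponent (d * k + e) v := by
        rw [← homogeneousComponent_mul_of_isHomogeneous ((hf.homog none).pow k), mul_comm _ u,
          ← map_add, hav, homogeneousComponent_eq_self]
        exact hom_isHomogeneous _ _ (hγ.trans hs)
      have h3 := component_mem_span (fun w : U ⊕ Fin (r + 1) => f (some w)) d
        (fun w => hf.homog _) v hv (d * k + e)
      have h4 : monomial γ 1 = G * L ψ (homogeneousComponent e u) +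
          L ψ (homogeneousComponent (d * k + e) v) := by
        rw [← L_hom ψ (d * k + e) γ, h2, map_add, map_mul]
      rw [h4, map_add]
      refine Submodule.add_mem _ ?_ ?_
      · have h5 : homogeneousComponent e u = ∑ β ∈ B, monomial β (coeff β u) := by
          ext β
          rw [coeff_homogeneousComponent, coeff_sum]
          simp only [coeff_monomial]
          rw [Finset.sum_ite_eq' B β]
          simp only [hB, mem_finsuppAntidiag_univ]
        rw [h5, map_sum, Finset.mul_sum, map_sum]
        refine Submodule.sum_mem _ fun β hβ => ?_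
        have h6 : G * L ψ (monomial β (coeff β u)) = coeff β u • (G * L ψ (monomial β 1)) := by
          rw [← mul_smul_comm, ← map_smul, smul_monomial, smul_eq_mul, mul_one]
        rw [h6, map_smul]
        exact Submodule.smul_mem _ _ (Submodule.subset_span ⟨Sum.inl ⟨β, hβ⟩, rfl⟩)
      · obtain ⟨c, hc⟩ := Ideal.mem_span_range_iff_exists_fun.1 h3
        rw [← hc, map_sum, map_sum]
        refine Submodule.sum_mem _ fun w _ => ?_
        rw [map_mul, mul_comm]
        rcases w with u' | t
        · rw [T_eq_zero _ _ (Ideal.mul_mem_right _ _ (hlin u'))]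
          exact Submodule.zero_mem _
        · exact T_mul_mem s (g t) _ (hg2 t) _ fun γ hγ =>
            Submodule.subset_span ⟨Sum.inr (t, ⟨γ, hγ⟩), rfl⟩
    intro x _
    have h2 : x = ∑ γ : expLe r s, x γ • T K r s (monomial γ.1 1) := by
      ext δ
      rw [Finset.sum_apply]
      simp only [Pi.smul_apply, T, LinearMap.coe_mk, AddHom.coe_mk, coeff_monomial, smul_eq_mul,
        mul_ite, mul_one, mul_zero]
      rw [Finset.sum_eq_single δ]
      · simp
      · intro γ _ hγ
        rw [if_neg]
        intro h; exact hγ (Subtype.ext h)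
      · intro h; exact absurd (Finset.mem_univ _) h
    rw [h2]
    exact Submodule.sum_mem _ fun γ _ => Submodule.smul_mem _ _ (h1 γ.1 γ.2)
  have h1 : Module.finrank K (expLe r s → K) ≤ Fintype.card (B ⊕ (Fin (r + 1) × expLe r (s - 2))) := by
    rw [← finrank_top K (expLe r s → K), ← top_le_iff.1 hspan]
    exact finrank_range_le_card b
  rw [Module.finrank_fintype_fun_eq_card, Fintype.card_sum, Fintype.card_prod, Fintype.card_coe,
    Fintype.card_coe, Fintype.card_coe, card_expLe, card_expLe, Fintype.card_fin] at h1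
  exact h1

end Pool.Agent.Q38.GF
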