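import Pool.Agent.Q38.GF.Linear

/-!
# One parameter families of tuples in normal form in every direction
-/

open MvPolynomial

namespace Pool.Agent.Q38.GF

universe u v

variable {K : Type u} [Field K] {r : ℕ} {U : Type v}

/-- The special tuple. -/
noncomputable def st (K : Type u) [Field K] (d : ℕ) (ι : Fin r × Fin (r + 1) → U) :
    Option (U ⊕ Fin (r + 1)) → MvPolynomial (Option (Fin r ⊕ U)) K
  | none => X none ^ d
  | some (Sum.inl u) => X none ^ (d - 1) * X (some (Sum.inr u))
  | some (Sum.inr t) => X none ^ (d - 2) *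
      ∑ a : Fin r, X (some (Sum.inl a)) * X (some (Sum.inr (ι (a, t))))

/-- A linear form in the variables `X none` and `X (some (inl a))`. -/
noncomputable def lin (U : Type v) (lam : K) (μ : Fin r → K) : MvPolynomial (Option (Fin r ⊕ U)) K :=
  C lam * X none + ∑ a : Fin r, C (μ a) * X (some (Sum.inl a))

/-- The derivative of the special tuple in the direction of a change of the variables
`X (some (inr u))`. -/
noncomputable def sh (d : ℕ) (ι : Fin r × Fin (r + 1) → U)
    (l : U → MvPolynomial (Option (Fin r ⊕ U)) K) :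
    Option (U ⊕ Fin (r + 1)) → MvPolynomial (Option (Fin r ⊕ U)) K
  | none => 0
  | some (Sum.inl u) => X none ^ (d - 1) * l u
  | some (Sum.inr t) => X none ^ (d - 2) *
      ∑ a : Fin r, X (some (Sum.inl a)) * l (ι (a, t))

lemma lin_isHomogeneous (lam : K) (μ : Fin r → K) : (lin U lam μ).IsHomogeneous 1 := by
  refine IsHomogeneous.add ?_ (IsHomogeneous.sum _ _ _ fun a _ => ?_)
  · simpa using (isHomogeneous_X K (none : Option (Fin r ⊕ U))).C_mul lam
  · simpa using (isHomogeneous_X K (some (Sum.inl a) : Option (Fin r ⊕ U))).C_mul (μ a)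

lemma pow_mul_homog {A : Type*} [CommRing A] {V : Type*} {i j d : ℕ} (v : V) (h : i + j = d)
    {P : MvPolynomial V A} (hP : P.IsHomogeneous j) : (X v ^ i * P).IsHomogeneous d := by
  have := ((isHomogeneous_X A v).pow i).mul hP
  rwa [one_mul, h] at this

lemma st_isHomogeneous (d : ℕ) (hd : 2 ≤ d) (ι : Fin r × Fin (r + 1) → U)
    (w : Option (U ⊕ Fin (r + 1))) : (st K d ι w).IsHomogeneous d := by
  rcases w with _ | u | t
  · have := (isHomogeneous_X K (none : Option (Fin r ⊕ U))).pow d
    rw [one_mul] at this
    exact this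
  · exact pow_mul_homog _ (by omega) (isHomogeneous_X K _)
  · exact pow_mul_homog (j := 2) _ (by omega) (IsHomogeneous.sum _ _ _ fun a _ =>
      (isHomogeneous_X K _).mul (isHomogeneous_X K _))

lemma sh_isHomogeneous (d : ℕ) (hd : 2 ≤ d) (ι : Fin r × Fin (r + 1) → U)
    (l : U → MvPolynomial (Option (Fin r ⊕ U)) K) (hl : ∀ u, (l u).IsHomogeneous 1)
    (w : Option (U ⊕ Fin (r + 1))) : (sh d ι l w).IsHomogeneous d := by
  rcases w with _ | u | t
  · exact isHomogeneous_zero _ _ _
  · exact pow_mul_homog _ (by omega) (hl u)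
  · exact pow_mul_homog (j := 2) _ (by omega) (IsHomogeneous.sum _ _ _ fun a _ =>
      (isHomogeneous_X K _).mul (hl _))

/-- Every direction is tangent to the orbit of the tuples in normal form. -/
lemma exists_tangent [Fintype U] [DecidableEq U] (d : ℕ) (hd : 2 ≤ d)
    (ι : Fin r × Fin (r + 1) → U) (hι : Function.Injective ι)
    (H : Option (U ⊕ Fin (r + 1)) → MvPolynomial (Option (Fin r ⊕ U)) K)
    (hH : ∀ w, (H w).IsHomogeneous d) :
    ∃ (lam : U → K) (μ : U → Fin r → K)
      (b : Option (U ⊕ Fin (r + 1)) → Option (U ⊕ Fin (r + 1)) → K)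
      (σ : Option (U ⊕ Fin (r + 1)) → MvPolynomial (Option (Fin r ⊕ U)) K),
      (∀ w, (σ w).IsHomogeneous d) ∧ (∀ w, σ (some w) ∈ J K r U ^ 2) ∧
      ∀ w, H w = sh d ι (fun u => lin U (lam u) (μ u)) w + σ w + ∑ w', C (b w w') * st K d ι w' := by
  classical
  choose c hc using fun w : U ⊕ Fin (r + 1) => exists_linear_part d (H (some w)) (hH _)
  set lam : U → K := Function.extend ι (fun p => c (Sum.inr p.2) (some (Sum.inl p.1))) 0 with hlam
  set μ : U → Fin r → K := fun u a => c (Sum.inl u) (some (Sum.inl a)) with hμ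
  set b : Option (U ⊕ Fin (r + 1)) → Option (U ⊕ Fin (r + 1)) → K := fun w w' => match w, w' with
    | none, _ => 0
    | some (Sum.inl u), none => c (Sum.inl u) none - lam u
    | some (Sum.inr t), none => c (Sum.inr t) none
    | some w, some (Sum.inl l) => c w (some (Sum.inr l))
    | some _, some (Sum.inr _) => 0 with hb
  refine ⟨lam, μ, b, fun w => H w - sh d ι (fun u => lin U (lam u) (μ u)) w -
    ∑ w', C (b w w') * st K d ι w', fun w => ?_, fun w => ?_, fun w => by ring⟩
  · refine ((hH w).sub (sh_isHomogeneous d hd ι _ (fun u => lin_isHomogeneous _ _) w)).sub ?_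
    exact IsHomogeneous.sum _ _ _ fun w' _ => (st_isHomogeneous d hd ι w').C_mul _
  · have h1 := hc w
    have h2 : sh d ι (fun u => lin U (lam u) (μ u)) (some w) +
        ∑ w', C (b (some w) w') * st K d ι w' - ∑ i, C (c w i) * lf K r U d i ∈ J K r U ^ 2 := by
      rcases w with u | t
      · have h3 : sh d ι (fun u => lin U (lam u) (μ u)) (some (Sum.inl u)) +
          ∑ w', C (b (some (Sum.inl u)) w') * st K d ι w' -
            ∑ i, C (c (Sum.inl u) i) * lf K r U d i = 0 := by
          rw [Fintype.sum_option, Fintype.sum_option, Fintype.sum_sum_type, Fintype.sum_sum_type]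
          have hd1 : (X none : MvPolynomial (Option (Fin r ⊕ U)) K) ^ d =
              X none ^ (d - 1) * X none := by
            rw [← pow_succ]; congr 1; omega
          simp only [sh, st, lf, lin, hb, hμ, map_sub, map_zero, zero_mul, Finset.sum_const_zero,
            add_zero, hd1, mul_add, Finset.mul_sum]
          have h4 : ∑ x : Fin r, (X none : MvPolynomial (Option (Fin r ⊕ U)) K) ^ (d - 1) *
              (C (c (Sum.inl u) (some (Sum.inl x))) * X (some (Sum.inl x))) =
              ∑ x : Fin r, C (c (Sum.inl u) (some (Sum.inl x))) *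
                (X none ^ (d - 1) * X (some (Sum.inl x))) :=
            Finset.sum_congr rfl fun x _ => by ring
          rw [h4]
          ring
        rw [h3]; exact Ideal.zero_mem _
      · have h3 : sh d ι (fun u => lin U (lam u) (μ u)) (some (Sum.inr t)) +
          ∑ w', C (b (some (Sum.inr t)) w') * st K d ι w' -
            ∑ i, C (c (Sum.inr t) i) * lf K r U d i = X none ^ (d - 2) * ∑ a : Fin r,
              X (some (Sum.inl a)) * ∑ a' : Fin r, C (μ (ι (a, t)) a') * X (some (Sum.inl a')) := by
          rw [Fintype.sum_option, Fintype.sum_option, Fintype.sum_sum_type, Fintype.sum_sum_type]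
          have hd1 : (X none : MvPolynomial (Option (Fin r ⊕ U)) K) ^ (d - 1) =
              X none ^ (d - 2) * X none := by
            rw [← pow_succ]; congr 1; omega
          have hl : ∀ a : Fin r, lam (ι (a, t)) = c (Sum.inr t) (some (Sum.inl a)) := fun a => by
            rw [hlam, hι.extend_apply]
          simp only [sh, st, lf, lin, hb, hl, map_zero, zero_mul, Finset.sum_const_zero,
            add_zero, mul_add, Finset.sum_add_distrib]
          have h4 : (X none : MvPolynomial (Option (Fin r ⊕ U)) K) ^ (d - 2) *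
              ∑ x : Fin r, X (some (Sum.inl x)) *
              (C (c (Sum.inr t) (some (Sum.inl x))) * X none) =
              ∑ x : Fin r, C (c (Sum.inr t) (some (Sum.inl x))) *
                (X none ^ (d - 1) * X (some (Sum.inl x))) := by
            rw [Finset.mul_sum]
            exact Finset.sum_congr rfl fun x _ => by rw [hd1]; ring
          rw [h4]
          ring
        rw [h3]
        refine Ideal.mul_mem_left _ _ (Ideal.sum_mem _ fun a _ => ?_)
        rw [pow_two]
        refine Ideal.mul_mem_mul (X_mem_J _) (Ideal.sum_mem _ fun a' _ => ?_)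
        exact Ideal.mul_mem_left _ _ (X_mem_J _)
    have h5 := Ideal.sub_mem _ h1 h2
    have e : H (some w) - sh d ι (fun u => lin U (lam u) (μ u)) (some w) -
        ∑ w', C (b (some w) w') * st K d ι w' =
        H (some w) - ∑ i, C (c w i) * lf K r U d i -
        (sh d ι (fun u => lin U (lam u) (μ u)) (some w) +
        ∑ w', C (b (some w) w') * st K d ι w' - ∑ i, C (c w i) * lf K r U d i) := by ring
    rw [← e] at h5
    exact h5

end Pool.Agent.Q38.GF
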