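import Pool.Agent.Q38.GF.Curve

/-!
# The family
-/

open MvPolynomial

namespace Pool.Agent.Q38.GF

universe u v

variable {K : Type u} [Field K] {r : ℕ} {U : Type v} {A E : Type*} [CommRing A] [Algebra K A]
  [CommRing E] [Algebra K E]

/-- The change of variables `X (some (inr u)) ↦ X (some (inr u)) + ε * lin u`. -/
noncomputable def th (lam : U → K) (μ : U → Fin r → K) (ε : A) :
    MvPolynomial (Option (Fin r ⊕ U)) A →ₐ[A] MvPolynomial (Option (Fin r ⊕ U)) A :=
  aeval (fun v => match v with
    | none => X none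
    | some (Sum.inl a) => X (some (Sum.inl a))
    | some (Sum.inr u) => X (some (Sum.inr u)) + C ε * map (algebraMap K A) (lin U (lam u) (μ u)))

variable (lam : U → K) (μ : U → Fin r → K) (ε : A)

lemma th_none : th lam μ ε (X none) = X none := by simp [th]

lemma th_inl (a : Fin r) : th lam μ ε (X (some (Sum.inl a))) = X (some (Sum.inl a)) := by simp [th]

lemma th_inr (u : U) : th lam μ ε (X (some (Sum.inr u))) = X (some (Sum.inr u)) +
    C ε * map (algebraMap K A) (lin U (lam u) (μ u)) := by simp [th]

lemma th_lin (u : U) : th lam μ ε (map (algebraMap K A) (lin U (lam u) (μ u))) =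
    map (algebraMap K A) (lin U (lam u) (μ u)) := by
  have hC : ∀ a : A, th lam μ ε (C a) = C a := fun a => (th lam μ ε).commutes a
  simp only [lin, map_add, map_mul, map_C, map_X, map_sum, hC, th_none, th_inl]

lemma th_neg_th (P : MvPolynomial (Option (Fin r ⊕ U)) A) :
    th lam μ (-ε) (th lam μ ε P) = P := by
  have hC : ∀ a : A, th lam μ (-ε) (C a) = C a := fun a => (th lam μ (-ε)).commutes a
  have h : (th lam μ (-ε)).comp (th lam μ ε) = AlgHom.id A _ := by
    apply MvPolynomial.algHom_ext
    intro v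
    rcases v with _ | a | u
    · simp [th_none]
    · simp [th_inl]
    · rw [AlgHom.comp_apply, th_inr, map_add, map_mul, th_inr, th_lin, hC, map_neg,
        AlgHom.id_apply]
      ring
  exact DFunLike.congr_fun h P

lemma th_isHomogeneous {n : ℕ} (P : MvPolynomial (Option (Fin r ⊕ U)) A)
    (hP : P.IsHomogeneous n) : (th lam μ ε P).IsHomogeneous n := by
  have := hP.aeval (n := 1) (fun v : Option (Fin r ⊕ U) => match v with
    | none => X none
    | some (Sum.inl a) => X (some (Sum.inl a))
    | some (Sum.inr u) => X (some (Sum.inr u)) + C ε * map (algebraMap K A) (lin U (lam u) (μ u)))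
    (fun v => by
      rcases v with _ | a | u
      · exact isHomogeneous_X _ _
      · exact isHomogeneous_X _ _
      · exact (isHomogeneous_X _ _).add (((lin_isHomogeneous _ _).map _).C_mul _))
  rwa [one_mul] at this

lemma th_congr (P : MvPolynomial (Option (Fin r ⊕ U)) A) :
    ∃ P', th lam μ ε P = P + C ε * P' := by
  have hC : ∀ a : A, th lam μ ε (C a) = C a := fun a => (th lam μ ε).commutes a
  induction P using MvPolynomial.induction_on with
  | C a => exact ⟨0, by rw [hC]; ring⟩
  | add p q hp hq =>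
    obtain ⟨p', hp⟩ := hp
    obtain ⟨q', hq⟩ := hq
    exact ⟨p' + q', by rw [map_add, hp, hq]; ring⟩
  | mul_X p v hp =>
    obtain ⟨p', hp⟩ := hp
    rcases v with _ | a | u
    · exact ⟨p' * X none, by rw [map_mul, hp, th_none]; ring⟩
    · exact ⟨p' * X (some (Sum.inl a)), by rw [map_mul, hp, th_inl]; ring⟩
    · exact ⟨p' * X (some (Sum.inr u)) + (p + C ε * p') *
        map (algebraMap K A) (lin U (lam u) (μ u)), by rw [map_mul, hp, th_inr]; ring⟩

lemma th_st (d : ℕ) (ι : Fin r × Fin (r + 1) → U) (w : Option (U ⊕ Fin (r + 1))) :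
    th lam μ ε (map (algebraMap K A) (st K d ι w)) = map (algebraMap K A) (st K d ι w) +
      C ε * map (algebraMap K A) (sh d ι (fun u => lin U (lam u) (μ u)) w) := by
  rcases w with _ | u | t
  · simp only [st, sh, map_pow, map_X, th_none, map_zero]; ring
  · simp only [st, sh, map_pow, map_mul, map_X, th_none, th_inr]; ring
  · simp only [st, sh, map_pow, map_mul, map_sum, map_X, th_none, th_inl, th_inr, mul_add,
      Finset.sum_add_distrib, Finset.mul_sum]
    congr 1
    exact Finset.sum_congr rfl fun x _ => by ring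

lemma map_th (φ : A →ₐ[K] E) (P : MvPolynomial (Option (Fin r ⊕ U)) A) :
    map (φ : A →+* E) (th lam μ ε P) = th lam μ (φ ε) (map (φ : A →+* E) P) := by
  have hC : ∀ a : A, th lam μ ε (C a) = C a := fun a => (th lam μ ε).commutes a
  have hC' : ∀ a : E, th lam μ (φ ε) (C a) = C a := fun a => (th lam μ (φ ε)).commutes a
  have hm : ∀ Q : MvPolynomial (Option (Fin r ⊕ U)) K,
      map (φ : A →+* E) (map (algebraMap K A) Q) = map (algebraMap K E) Q := by
    intro Q
    rw [map_map]
    congr 2
    ext x; simp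
  induction P using MvPolynomial.induction_on with
  | C a => rw [hC, map_C, hC']
  | add p q hp hq => rw [map_add, map_add, map_add, map_add, hp, hq]
  | mul_X p v hp =>
    rcases v with _ | a | u
    · rw [map_mul, map_mul, hp, th_none, map_mul, map_mul, map_X, th_none]
    · rw [map_mul, map_mul, hp, th_inl, map_mul, map_mul, map_X, th_inl]
    · rw [map_mul, map_mul, hp, th_inr, map_mul, map_mul, map_X, th_inr, map_add, map_mul, hm,
        map_X, map_C]
      rfl

variable (d : ℕ) (ι : Fin r × Fin (r + 1) → U)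
  (b : Option (U ⊕ Fin (r + 1)) → Option (U ⊕ Fin (r + 1)) → K)
  (σ : Option (U ⊕ Fin (r + 1)) → MvPolynomial (Option (Fin r ⊕ U)) K)

/-- The tuple in normal form of the family. -/
noncomputable def sp (w : Option (U ⊕ Fin (r + 1))) : MvPolynomial (Option (Fin r ⊕ U)) A :=
  map (algebraMap K A) (st K d ι w) + C ε * map (algebraMap K A) (σ w)

/-- The family. -/
noncomputable def cv [Fintype U] (w : Option (U ⊕ Fin (r + 1))) :
    MvPolynomial (Option (Fin r ⊕ U)) A :=
  th lam μ ε (sp ε d ι σ w) +
    C ε * ∑ w', C (algebraMap K A (b w w')) * th lam μ ε (sp ε d ι σ w')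

lemma map_cv [Fintype U] (φ : A →ₐ[K] E) (w : Option (U ⊕ Fin (r + 1))) :
    map (φ : A →+* E) (cv lam μ ε d ι b σ w) = cv lam μ (φ ε) d ι b σ w := by
  have hm : ∀ Q : MvPolynomial (Option (Fin r ⊕ U)) K,
      map (φ : A →+* E) (map (algebraMap K A) Q) = map (algebraMap K E) Q := by
    intro Q
    rw [map_map]
    congr 2
    ext x; simp
  have hs : ∀ w, map (φ : A →+* E) (sp ε d ι σ w) = sp (φ ε) d ι σ w := by
    intro w
    simp only [sp, map_add, map_mul, map_C, hm]
    rfl
  simp only [cv, map_add, map_mul, map_C, map_sum, map_th, hs]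
  simp

lemma cv_expand [Fintype U] (H : Option (U ⊕ Fin (r + 1)) → MvPolynomial (Option (Fin r ⊕ U)) K)
    (hH : ∀ w, H w = sh d ι (fun u => lin U (lam u) (μ u)) w + σ w + ∑ w', C (b w w') * st K d ι w')
    (w : Option (U ⊕ Fin (r + 1))) :
    ∃ R : MvPolynomial (Option (Fin r ⊕ U)) A, cv lam μ ε d ι b σ w =
      map (algebraMap K A) (st K d ι w) + C ε * (map (algebraMap K A) (H w) + C ε * R) := by
  choose σ' hσ' using fun w => th_congr lam μ ε (map (algebraMap K A) (σ w))
  have hC : ∀ a : A, th lam μ ε (C a) = C a := fun a => (th lam μ ε).commutes a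
  have h1 : ∀ w, th lam μ ε (sp ε d ι σ w) = map (algebraMap K A) (st K d ι w) +
      C ε * (map (algebraMap K A) (sh d ι (fun u => lin U (lam u) (μ u)) w) +
      map (algebraMap K A) (σ w) + C ε * σ' w) := by
    intro w
    rw [sp, map_add, map_mul, hC, th_st, hσ']
    ring
  refine ⟨σ' w + ∑ w', C (algebraMap K A (b w w')) *
    (map (algebraMap K A) (sh d ι (fun u => lin U (lam u) (μ u)) w') +
      map (algebraMap K A) (σ w') + C ε * σ' w'), ?_⟩
  rw [cv]
  simp only [h1]
  rw [hH w]
  simp only [map_add, map_sum, map_mul, map_C, mul_add, Finset.sum_add_distrib, Finset.mul_sum]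
  have e1 : ∀ (f : Option (U ⊕ Fin (r + 1)) → MvPolynomial (Option (Fin r ⊕ U)) A),
    (∑ x, C ε * (C ((algebraMap K A) (b w x)) * (C ε * f x))) =
      ∑ x, C ε * (C ε * (C ((algebraMap K A) (b w x)) * f x)) := fun f =>
    Finset.sum_congr rfl fun x _ => by ring
  simp only [e1]
  ring

end Pool.Agent.Q38.GF
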