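import Pool.Agent.Q38.GF.Lowest

/-!
# Linear parts
-/

open MvPolynomial

namespace Pool.Agent.Q38.GF

variable {K : Type*} [Field K] {r : ℕ} {U : Type*}

/-- The forms `X none ^ d` and `X none ^ (d - 1) * X (some v)`. -/
noncomputable def lf (K : Type*) [Field K] (r : ℕ) (U : Type*) (d : ℕ) :
    Option (Fin r ⊕ U) → MvPolynomial (Option (Fin r ⊕ U)) K
  | none => X none ^ d
  | some v => X none ^ (d - 1) * X (some v)

lemma X_mem_J (v : Fin r ⊕ U) : (X (some v) : MvPolynomial (Option (Fin r ⊕ U)) K) ∈ J K r U :=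
  Ideal.subset_span ⟨v, rfl⟩

lemma monomial_cases (d : ℕ) : ∀ m : Option (Fin r ⊕ U) →₀ ℕ, m.degree = d →
    (monomial m (1 : K) = X none ^ d) ∨ (∃ v, monomial m (1 : K) = X none ^ (d - 1) * X (some v) ∧
      1 ≤ d) ∨ monomial m (1 : K) ∈ J K r U ^ 2 := by
  classical
  induction d with
  | zero =>
    intro m hm
    left
    rw [Finsupp.degree_eq_zero_iff] at hm
    rw [hm, pow_zero]
    rfl
  | succ d ih =>
    intro m hm
    obtain ⟨v, hv⟩ : ∃ v, m v ≠ 0 := by
      by_contra hcon
      push Not at hcon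
      have : m = 0 := Finsupp.ext hcon
      rw [this] at hm
      simp at hm
    have hle : Finsupp.single v 1 ≤ m := by
      rw [Finsupp.single_le_iff]; omega
    set m' := m - Finsupp.single v 1 with hm'
    have e1 : m = m' + Finsupp.single v 1 := (tsub_add_cancel_of_le hle).symm
    have hd : m'.degree = d := by
      rw [e1, map_add, Finsupp.degree_single] at hm
      omega
    have e2 : monomial m (1 : K) = monomial m' 1 * X v := by
      rw [X, monomial_mul, one_mul, ← e1]
    rcases ih m' hd with h | ⟨v', h, hd1⟩ | h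
    · rw [e2, h]
      rcases v with _ | v
      · left; rw [pow_succ]
      · right; left; exact ⟨v, by simp, by omega⟩
    · rw [e2, h]
      rcases v with _ | v
      · right; left
        refine ⟨v', ?_, by omega⟩
        have : d + 1 - 1 = (d - 1) + 1 := by omega
        rw [this, pow_succ]; ring
      · right; right
        rw [mul_assoc, pow_two]
        exact Ideal.mul_mem_left _ _ (Ideal.mul_mem_mul (X_mem_J v') (X_mem_J v))
    · right; right
      rw [e2]
      exact Ideal.mul_mem_right _ _ h

lemma exists_linear_part [Fintype U] [DecidableEq U] (d : ℕ)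
    (H : MvPolynomial (Option (Fin r ⊕ U)) K) (hH : H.IsHomogeneous d) :
    ∃ c : Option (Fin r ⊕ U) → K, H - ∑ i, C (c i) * lf K r U d i ∈ J K r U ^ 2 := by
  classical
  set S : Submodule K (MvPolynomial (Option (Fin r ⊕ U)) K) :=
    Submodule.span K (Set.range (lf K r U d)) ⊔ (J K r U ^ 2).restrictScalars K with hS
  have h1 : H ∈ S := by
    rw [eq_sum_mon H hH]
    refine Submodule.sum_mem _ fun m _ => ?_
    have e : monomial m.1 (coeff m.1 H) = coeff m.1 H • (monomial m.1 (1 : K)) := by
      rw [smul_monomial, smul_eq_mul, mul_one]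
    rw [e]
    apply Submodule.smul_mem
    rcases monomial_cases (K := K) d m.1 ((mem_finsuppAntidiag_univ _ _).1 m.2) with
      h | ⟨v, h, _⟩ | h
    · rw [h]; exact Submodule.mem_sup_left (Submodule.subset_span ⟨none, rfl⟩)
    · rw [h]; exact Submodule.mem_sup_left (Submodule.subset_span ⟨some v, rfl⟩)
    · exact Submodule.mem_sup_right h
  obtain ⟨a, ha, b, hb, hab⟩ := Submodule.mem_sup.1 h1
  obtain ⟨c, hc⟩ := (Submodule.mem_span_range_iff_exists_fun K).1 ha
  refine ⟨c, ?_⟩
  have : H - ∑ i, C (c i) * lf K r U d i = b := by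
    rw [← hab, ← hc]
    simp only [smul_eq_C_mul]
    ring
  rw [this]
  exact hb

end Pool.Agent.Q38.GF
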