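import Pool.Agent.Q38.GF.Open

/-!
# Lowest order terms
-/

open MvPolynomial

namespace Pool.Agent.Q38.GF

lemma aeval_mul_of_isHomogeneous {I K A : Type*} [Field K] [CommRing A] [Algebra K A]
    (P : MvPolynomial I K) (n : ℕ) (hP : P.IsHomogeneous n) (c : A) (w : I → A) :
    aeval (fun i => c * w i) P = c ^ n * aeval w P := by
  rw [aeval_def, aeval_def, eval₂_eq, eval₂_eq, Finset.mul_sum]
  refine Finset.sum_congr rfl fun d hd => ?_
  have h1 : ∏ i ∈ d.support, (c * w i) ^ d i = c ^ n * ∏ i ∈ d.support, w i ^ d i := by
    simp only [mul_pow]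
    rw [Finset.prod_mul_distrib, Finset.prod_pow_eq_pow_sum]
    congr 2
    have := hP.degree_eq_sum_deg_support hd
    rw [← this]
  rw [h1]
  ring

lemma exists_direction {I K : Type*} [Field K] [Infinite K] (P : MvPolynomial I K) (hP : P ≠ 0) :
    ∃ h : I → K, ∀ R : I → Polynomial K,
      aeval (fun i => Polynomial.X * (Polynomial.C (h i) + Polynomial.X * R i)) P ≠ 0 := by
  classical
  have hex : ∃ m, homogeneousComponent m P ≠ 0 := by
    by_contra hcon
    push Not at hcon
    apply hP
    rw [← sum_homogeneousComponent P]
    exact Finset.sum_eq_zero fun i _ => hcon i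
  set m := Nat.find hex with hm
  have hm1 : homogeneousComponent m P ≠ 0 := Nat.find_spec hex
  have hm2 : ∀ i < m, homogeneousComponent i P = 0 := fun i hi => by
    by_contra h
    exact Nat.find_min hex hi h
  obtain ⟨h, hh⟩ : ∃ h : I → K, eval h (homogeneousComponent m P) ≠ 0 := by
    by_contra hcon
    push Not at hcon
    exact hm1 (MvPolynomial.funext fun x => by rw [hcon x, map_zero])
  refine ⟨h, fun R hz => ?_⟩
  set w : I → Polynomial K := fun i => Polynomial.C (h i) + Polynomial.X * R i with hw
  have hcoef : (aeval (fun i => Polynomial.X * w i) P : Polynomial K).coeff m =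
      eval h (homogeneousComponent m P) := by
    conv_lhs => rw [← sum_homogeneousComponent P, map_sum, Polynomial.finsetSum_coeff]
    rw [Finset.sum_eq_single m]
    · rw [aeval_mul_of_isHomogeneous _ m (homogeneousComponent_isHomogeneous m P),
        Polynomial.coeff_X_pow_mul', if_pos le_rfl, Nat.sub_self, Polynomial.coeff_zero_eq_eval_zero]
      have h1 : ∀ Q : MvPolynomial I K, Polynomial.eval 0 (aeval w Q) = eval h Q := by
        intro Q
        induction Q using MvPolynomial.induction_on with
        | C a => simp
        | add p q hp hq => simp [hp, hq]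
        | mul_X p i hp =>
          rw [map_mul, map_mul, Polynomial.eval_mul, hp, aeval_X, eval_X]
          simp [hw]
      exact h1 _
    · intro i _ hi
      rw [aeval_mul_of_isHomogeneous _ i (homogeneousComponent_isHomogeneous i P),
        Polynomial.coeff_X_pow_mul']
      split_ifs with hle
      · rw [hm2 i (lt_of_le_of_ne hle hi)]
        simp
      · rfl
    · intro hnot
      rw [homogeneousComponent_eq_zero]
      · simp
      · simpa using hnot
  rw [hz] at hcoef
  exact hh (by rw [← hcoef]; simp)

/-- The tangent criterion in terms of one parameter families. -/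
lemma exists_direction_at {I K : Type*} [Field K] [Infinite K] (Δ : MvPolynomial I K)
    (x₀ x₁ : I → K) (h₀ : aeval x₀ Δ ≠ (0 : K)) :
    ∃ h : I → K, ∀ R : I → Polynomial K,
      aeval (fun i => Polynomial.C (x₁ i) +
        Polynomial.X * (Polynomial.C (h i) + Polynomial.X * R i)) Δ ≠ (0 : Polynomial K) := by
  set P : MvPolynomial I K := aeval (fun i => C (x₁ i) + X i) Δ with hP
  have hP0 : P ≠ 0 := by
    intro hz
    apply h₀
    have h1 : ∀ Q : MvPolynomial I K, aeval (fun i => x₀ i - x₁ i)
        (aeval (fun i => C (x₁ i) + X i) Q : MvPolynomial I K) = (aeval x₀ Q : K) := by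
      intro Q
      induction Q using MvPolynomial.induction_on with
      | C a => simp
      | add p q hp hq => rw [map_add, map_add, map_add, hp, hq]
      | mul_X p i hp =>
        rw [map_mul, map_mul, map_mul, hp, aeval_X, aeval_X, map_add, aeval_X, aeval_C]
        simp
    rw [← h1 Δ, ← hP, hz, map_zero]
  obtain ⟨h, hh⟩ := exists_direction P hP0
  refine ⟨h, fun R => ?_⟩
  have h2 : ∀ Q : MvPolynomial I K, aeval (fun i => Polynomial.X * (Polynomial.C (h i) +
      Polynomial.X * R i)) (aeval (fun i => C (x₁ i) + X i) Q : MvPolynomial I K) =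
      (aeval (fun i => Polynomial.C (x₁ i) +
        Polynomial.X * (Polynomial.C (h i) + Polynomial.X * R i)) Q : Polynomial K) := by
    intro Q
    induction Q using MvPolynomial.induction_on with
    | C a => simp
    | add p q hp hq => simp only [map_add, hp, hq]
    | mul_X p i hp => simp only [map_mul, hp, aeval_X, map_add, aeval_C]; rfl
  rw [← h2 Δ]
  exact hh R

end Pool.Agent.Q38.GF
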