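import Pool.Agent.Q38.GF.Family

/-!
# The powers of the ideals of `n + 1` forms in `n` variables
-/

open MvPolynomial

namespace Pool.Agent.Q38.GF

universe u v

variable {r : ℕ} {U : Type v}

lemma map_mem_J_sq {K : Type u} [Field K] {E : Type*} [Field E] [Algebra K E]
    (P : MvPolynomial (Option (Fin r ⊕ U)) K) (hP : P ∈ J K r U ^ 2) :
    map (algebraMap K E) P ∈ J E r U ^ 2 := by
  have h1 : J K r U ≤ (J E r U).comap (map (algebraMap K E)) := by
    rw [J, Ideal.span_le]
    rintro _ ⟨v, rfl⟩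
    simp only [SetLike.mem_coe, Ideal.mem_comap, map_X]
    exact X_mem_J v
  exact (Ideal.pow_right_mono h1 2).trans (Ideal.le_comap_pow _ 2) hP

lemma st_special {E : Type u} [Field E] {K : Type u} [Field K] [Algebra K E] (d : ℕ) (hd : 2 ≤ d)
    (ι : Fin r × Fin (r + 1) → U)
    (σ : Option (U ⊕ Fin (r + 1)) → MvPolynomial (Option (Fin r ⊕ U)) K)
    (hσ : ∀ w, (σ w).IsHomogeneous d) (hσ2 : ∀ w, σ (some w) ∈ J K r U ^ 2) (ε : E) :
    Special d (sp ε d ι σ) where
  homog w := ((st_isHomogeneous d hd ι w).map _).add (((hσ w).map _).C_mul _)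
  lin u := by
    have : sp ε d ι σ (some (Sum.inl u)) - X none ^ (d - 1) * X (some (Sum.inr u)) =
        C ε * map (algebraMap K E) (σ (some (Sum.inl u))) := by
      simp only [sp, st, map_mul, map_pow, map_X]
      ring
    rw [this]
    exact Ideal.mul_mem_left _ _ (map_mem_J_sq _ (hσ2 _))
  sq t := by
    rw [sp]
    refine Ideal.add_mem _ ?_ (Ideal.mul_mem_left _ _ (map_mem_J_sq _ (hσ2 _)))
    simp only [st, map_mul, map_pow, map_X, map_sum]
    refine Ideal.mul_mem_left _ _ (Ideal.sum_mem _ fun a _ => ?_)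
    rw [pow_two]
    exact Ideal.mul_mem_mul (X_mem_J _) (X_mem_J _)

lemma good_of_cv [Fintype U] {E : Type u} [Field E] {K : Type u} [Field K] [Algebra K E] (d D k : ℕ)
    (ι : Fin r × Fin (r + 1) → U) (lam : U → K) (μ : U → Fin r → K)
    (b : Option (U ⊕ Fin (r + 1)) → Option (U ⊕ Fin (r + 1)) → K)
    (σ : Option (U ⊕ Fin (r + 1)) → MvPolynomial (Option (Fin r ⊕ U)) K) (ε : E)
    (h : Good D k (cv lam μ ε d ι b σ)) : Good D k (sp (K := K) ε d ι σ) := by
  intro P hP
  have h1 := h _ (th_isHomogeneous lam μ ε P hP)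
  have h2 : Ideal.span (Set.range (cv lam μ ε d ι b σ)) ≤
      Ideal.span (Set.range fun w => th lam μ ε (sp ε d ι σ w)) := by
    rw [Ideal.span_le]
    rintro _ ⟨w, rfl⟩
    refine Ideal.add_mem _ (Ideal.subset_span ⟨w, rfl⟩)
      (Ideal.mul_mem_left _ _ (Ideal.sum_mem _ fun w' _ => Ideal.mul_mem_left _ _
        (Ideal.subset_span ⟨w', rfl⟩)))
  have h3 := Ideal.pow_right_mono h2 k h1
  have h4 := Ideal.mem_map_of_mem (th lam μ (-ε)) h3
  rw [Ideal.map_pow, Ideal.map_span, th_neg_th, ← Set.range_comp] at h4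
  have h5 : (⇑(th lam μ (-ε)) ∘ fun w => th lam μ ε (sp ε d ι σ w)) = sp (K := K) ε d ι σ := by
    funext w
    exact th_neg_th lam μ ε _
  rwa [h5] at h4

theorem not_good [Fintype U] [DecidableEq U] {K : Type u} [Field K] [Infinite K] (d k e s : ℕ) (hd : 2 ≤ d)
    (ι : Fin r × Fin (r + 1) → U) (hι : Function.Injective ι) (hs : s ≤ d * k + e)
    (hnum : (Mon (Option (Fin r ⊕ U)) e).card + (r + 1) * (r + (s - 2)).choose (s - 2) <
      (r + s).choose s)
    (f₀ : Option (U ⊕ Fin (r + 1)) → MvPolynomial (Option (Fin r ⊕ U)) K)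
    (h₀ : ∀ w, (f₀ w).IsHomogeneous d) : ¬ Good (d * k + e) k f₀ := by
  classical
  intro good
  obtain ⟨Δ, hΔ0, hΔ⟩ := exists_disc d (d * k + e) k f₀ h₀ good
  obtain ⟨h, hh⟩ := exists_direction_at Δ (fun i => coeff i.2.1 (f₀ i.1))
    (fun i => coeff i.2.1 (st K d ι i.1)) hΔ0
  set H : Option (U ⊕ Fin (r + 1)) → MvPolynomial (Option (Fin r ⊕ U)) K :=
    fun w => ∑ m : Mon (Option (Fin r ⊕ U)) d, monomial m.1 (h (w, m)) with hH
  have hH1 : ∀ w, (H w).IsHomogeneous d := fun w => IsHomogeneous.sum _ _ _ fun m _ =>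
    isHomogeneous_monomial _ ((mem_finsuppAntidiag_univ _ _).1 m.2)
  have hH2 : ∀ w m, coeff (m : Mon (Option (Fin r ⊕ U)) d).1 (H w) = h (w, m) := by
    intro w m
    rw [hH, coeff_sum]
    simp only [coeff_monomial]
    rw [Finset.sum_eq_single m]
    · simp
    · intro m' _ hne
      rw [if_neg]
      intro h'; exact hne (Subtype.ext h')
    · intro hn; exact absurd (Finset.mem_univ _) hn
  obtain ⟨lam, μ, b, σ, hσ, hσ2, hexp⟩ := exists_tangent d hd ι hι H hH1
  choose R hR using fun w => cv_expand lam μ (Polynomial.X : Polynomial K) d ι b σ H hexp w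
  have h1 := hh (fun i => coeff i.2.1 (R i.1))
  let E := FractionRing (Polynomial K)
  let φ : Polynomial K →ₐ[K] E := IsScalarTower.toAlgHom K (Polynomial K) E
  have hφ : Function.Injective φ := IsFractionRing.injective (Polynomial K) E
  have h2 : (fun i : Option (U ⊕ Fin (r + 1)) × Mon (Option (Fin r ⊕ U)) d =>
      coeff i.2.1 (cv lam μ (φ Polynomial.X) d ι b σ i.1)) =
      fun i => φ (Polynomial.C (coeff i.2.1 (st K d ι i.1)) +
        Polynomial.X * (Polynomial.C (h i) + Polynomial.X * coeff i.2.1 (R i.1))) := by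
    funext i
    rw [← map_cv lam μ Polynomial.X d ι b σ φ, coeff_map, hR]
    simp only [coeff_add, coeff_C_mul, coeff_map, hH2]
    rfl
  have h3 : Good (d * k + e) k (cv lam μ (φ Polynomial.X) d ι b σ) := by
    apply hΔ E
    · intro w
      refine (th_isHomogeneous _ _ _ _ ?_).add (IsHomogeneous.C_mul (IsHomogeneous.sum _ _ _
        fun w' _ => IsHomogeneous.C_mul (th_isHomogeneous _ _ _ _ ?_) _) _)
      · exact (st_special d hd ι σ hσ hσ2 _).homog w
      · exact (st_special d hd ι σ hσ hσ2 _).homog w'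
    · rw [h2]
      intro hz
      apply h1
      apply hφ
      rw [map_zero, ← hz]
      exact map_aeval _ _ _
  have h4 := special_count d k e s _ (st_special d hd ι σ hσ hσ2 (φ Polynomial.X)) hs
    (good_of_cv d (d * k + e) k ι lam μ b σ _ h3)
  exact absurd h4 (not_le.2 hnum)

end Pool.Agent.Q38.GF
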