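import Pool.Agent.Q38.GF.Count

/-!
# The tuples of forms whose ideal has a given power containing all forms of a given degree

They form a Zariski open set; a tangent space criterion.
-/

open MvPolynomial

namespace Pool.Agent.Q38.GF

universe u v w

variable {V : Type v} {W : Type w} [Fintype V] [DecidableEq V]

/-- The exponents of degree `d`. -/
noncomputable abbrev Mon (V : Type v) [Fintype V] [DecidableEq V] (d : ℕ) : Finset (V →₀ ℕ) :=
  (Finset.univ : Finset V).finsuppAntidiag d

/-- The `k`-th power of the ideal generated by the tuple `f` contains all forms of degree `D`. -/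
def Good {E : Type*} [Field E] (D k : ℕ) (f : W → MvPolynomial V E) : Prop :=
  ∀ P : MvPolynomial V E, P.IsHomogeneous D → P ∈ Ideal.span (Set.range f) ^ k

lemma eq_sum_mon {A : Type*} [CommRing A] {d : ℕ} (P : MvPolynomial V A)
    (hP : P.IsHomogeneous d) : P = ∑ m : Mon V d, monomial m.1 (coeff m.1 P) := by
  rw [Finset.sum_coe_sort (Mon V d) (fun m => monomial m (coeff m P))]
  ext β
  rw [coeff_sum]
  simp only [coeff_monomial]
  rw [Finset.sum_ite_eq' (Mon V d) β]
  split_ifs with h
  · rfl
  · rw [mem_finsuppAntidiag_univ] at h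
    exact hP.coeff_eq_zero h

/-- The generic tuple of forms of degree `d`. -/
noncomputable def gen (K : Type u) [Field K] (d : ℕ) (w : W) :
    MvPolynomial V (MvPolynomial (W × Mon V d) K) :=
  ∑ m : Mon V d, monomial m.1 (X (w, m))

lemma map_gen {K : Type u} [Field K] {E : Type*} [Field E] [Algebra K E] {d : ℕ}
    (f : W → MvPolynomial V E) (hf : ∀ w, (f w).IsHomogeneous d) (w : W) :
    map ((aeval (fun i : W × Mon V d => coeff i.2.1 (f i.1)) :
      MvPolynomial (W × Mon V d) K →ₐ[K] E) : MvPolynomial (W × Mon V d) K →+* E)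
      (gen (V := V) K d w) = f w := by
  rw [gen, map_sum]
  conv_rhs => rw [eq_sum_mon (f w) (hf w)]
  refine Finset.sum_congr rfl fun m _ => ?_
  rw [map_monomial]
  simp

attribute [local instance] MvPolynomial.gradedAlgebra in
lemma component_mem_span_pow {σ ι E : Type*} [Field E] (g : ι → MvPolynomial σ E) (d k : ℕ)
    (hg : ∀ i, (g i).IsHomogeneous d) (v : MvPolynomial σ E)
    (hv : v ∈ Ideal.span (Set.range g) ^ k)
    (D : ℕ) : homogeneousComponent D v ∈ Ideal.span (Set.range g) ^ k := by
  have h1 : (Ideal.span (Set.range g)).IsHomogeneous (homogeneousSubmodule σ E) := by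
    apply Ideal.homogeneous_span
    rintro _ ⟨i, rfl⟩
    exact ⟨d, hg i⟩
  have h2 : (Ideal.span (Set.range g) ^ k).IsHomogeneous (homogeneousSubmodule σ E) := by
    clear hv
    induction k with
    | zero => rw [pow_zero, Ideal.one_eq_top]; exact Ideal.IsHomogeneous.top _
    | succ k ih =>
      rw [pow_succ]
      exact Ideal.IsHomogeneous.mul ih h1
  exact homogeneousComponent_mem_of_mem h2 hv D

theorem exists_disc [Fintype W] {K : Type u} [Field K] (d D k : ℕ) (f₀ : W → MvPolynomial V K)
    (h₀ : ∀ w, (f₀ w).IsHomogeneous d) (good : Good D k f₀) :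
    ∃ Δ : MvPolynomial (W × Mon V d) K,
      aeval (fun i : W × Mon V d => coeff i.2.1 (f₀ i.1)) Δ ≠ (0 : K) ∧
      ∀ (E : Type u) [Field E] [Algebra K E] (f : W → MvPolynomial V E),
        (∀ w, (f w).IsHomogeneous d) →
        aeval (fun i : W × Mon V d => coeff i.2.1 (f i.1)) Δ ≠ (0 : E) → Good D k f := by
  classical
  have h1 : ∀ γ : Mon V D, ∃ p : MvPolynomial W (MvPolynomial V K), p.IsHomogeneous k ∧
      p.eval f₀ = monomial γ.1 1 := by
    intro γ
    have := good (monomial γ.1 1) (isHomogeneous_monomial _ ((mem_finsuppAntidiag_univ _ _).1 γ.2))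
    exact (Ideal.mem_span_pow_iff_exists_isHomogeneous _ _).1 this
  choose p hp hp2 using h1
  let Λ := MvPolynomial (W × Mon V d) K
  let G : Mon V D → MvPolynomial V Λ := fun γ =>
    eval (gen (V := V) K d) (map (map (C : K →+* Λ)) (p γ))
  let Q : Matrix (Mon V D) (Mon V D) Λ := fun γ' γ => coeff γ'.1 (G γ)
  have key : ∀ (E : Type u) [Field E] [Algebra K E] (f : W → MvPolynomial V E),
      (∀ w, (f w).IsHomogeneous d) → ∀ γ,
      map ((aeval (fun i : W × Mon V d => coeff i.2.1 (f i.1)) : Λ →ₐ[K] E) : Λ →+* E) (G γ) =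
        eval f (map (map (algebraMap K E)) (p γ)) := by
    intro E _ _ f hf γ
    have e1 : (map ((aeval (fun i : W × Mon V d => coeff i.2.1 (f i.1)) : Λ →ₐ[K] E) : Λ →+* E)).comp
        (map (C : K →+* Λ)) = (map (algebraMap K E) : MvPolynomial V K →+* MvPolynomial V E) := by
      apply MvPolynomial.ringHom_ext
      · intro i
        simp only [RingHom.comp_apply, map_C]
        congr 1
        exact aeval_C _ _
      · intro i; simp
    have e2 : G γ = eval₂ (map (C : K →+* Λ)) (gen (V := V) K d) (p γ) := by
      simp only [G]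
      rw [eval_map]
    rw [e2, eval_map, eval₂_comp_left, e1]
    congr 1
    funext w
    exact map_gen f hf w
  have hQ : ∀ (E : Type u) [Field E] [Algebra K E] (f : W → MvPolynomial V E),
      (∀ w, (f w).IsHomogeneous d) →
      aeval (fun i : W × Mon V d => coeff i.2.1 (f i.1)) Q.det =
        Matrix.det (fun γ' γ : Mon V D => coeff γ'.1 (eval f (map (map (algebraMap K E)) (p γ)))) := by
    intro E _ _ f hf
    have := AlgHom.map_det (aeval (fun i : W × Mon V d => coeff i.2.1 (f i.1)) : Λ →ₐ[K] E) Q
    rw [this]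
    congr 1
    ext γ' γ
    rw [← key E f hf γ, coeff_map]
    rfl
  refine ⟨Q.det, ?_, ?_⟩
  · rw [hQ K f₀ h₀]
    have : (fun γ' γ : Mon V D => coeff γ'.1 (eval f₀ (map (map (algebraMap K K)) (p γ)))) =
        (1 : Matrix (Mon V D) (Mon V D) K) := by
      ext γ' γ
      have e3 : (map (map (algebraMap K K)) (p γ)) = p γ := by
        have e4 : (map (algebraMap K K) : MvPolynomial V K →+* MvPolynomial V K) = RingHom.id _ := by
          ext <;> simp
        rw [e4, map_id]
      rw [e3, hp2, coeff_monomial, Matrix.one_apply]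
      by_cases h : γ' = γ
      · simp [h]
      · rw [if_neg h, if_neg]
        intro h'; exact h (Subtype.ext h'.symm)
    rw [this, Matrix.det_one]
    exact one_ne_zero
  · intro E _ _ f hf hdet
    rw [hQ E f hf] at hdet
    set M : Matrix (Mon V D) (Mon V D) E :=
      fun γ' γ : Mon V D => coeff γ'.1 (eval f (map (map (algebraMap K E)) (p γ))) with hM
    have hunit : IsUnit M.det := isUnit_iff_ne_zero.2 hdet
    have hmem : ∀ γ, homogeneousComponent D (eval f (map (map (algebraMap K E)) (p γ))) ∈
        Ideal.span (Set.range f) ^ k := by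
      intro γ
      apply component_mem_span_pow f d k hf
      rw [Ideal.mem_span_pow_iff_exists_isHomogeneous]
      exact ⟨_, (hp γ).map _, rfl⟩
    have hmono : ∀ γ₀ : Mon V D, (monomial γ₀.1 1 : MvPolynomial V E) ∈
        Ideal.span (Set.range f) ^ k := by
      intro γ₀
      have h2 : M.mulVec (M⁻¹.mulVec (Pi.single γ₀ 1)) = Pi.single γ₀ 1 := by
        rw [Matrix.mulVec_mulVec, Matrix.mul_nonsing_inv _ hunit, Matrix.one_mulVec]
      set c := M⁻¹.mulVec (Pi.single γ₀ 1) with hc
      have h3 : (monomial γ₀.1 1 : MvPolynomial V E) = ∑ γ : Mon V D,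
          C (c γ) * homogeneousComponent D (eval f (map (map (algebraMap K E)) (p γ))) := by
        ext β
        rw [coeff_sum]
        simp only [coeff_C_mul, coeff_homogeneousComponent]
        by_cases hβ : β.degree = D
        · simp only [hβ, if_true]
          have h4 := congrFun h2 ⟨β, (mem_finsuppAntidiag_univ _ _).2 hβ⟩
          rw [Matrix.mulVec, dotProduct] at h4
          simp only [hM] at h4
          rw [coeff_monomial]
          have h5 : (Pi.single γ₀ (1 : E) : Mon V D → E) ⟨β, (mem_finsuppAntidiag_univ _ _).2 hβ⟩ =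
              if γ₀.1 = β then 1 else 0 := by
            rw [Pi.single_apply]
            by_cases h : γ₀.1 = β
            · rw [if_pos h, if_pos (Subtype.ext h.symm)]
            · rw [if_neg h, if_neg]
              intro h'; exact h (congrArg Subtype.val h').symm
          rw [← h5, ← h4]
          exact Finset.sum_congr rfl fun γ _ => mul_comm _ _
        · simp only [hβ, if_false, mul_zero, Finset.sum_const_zero]
          rw [coeff_monomial, if_neg]
          intro h; exact hβ (h ▸ (mem_finsuppAntidiag_univ _ _).1 γ₀.2)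
      rw [h3]
      exact Ideal.sum_mem _ fun γ _ => Ideal.mul_mem_left _ _ (hmem γ)
    intro P hP
    rw [eq_sum_mon P hP]
    refine Ideal.sum_mem _ fun γ _ => ?_
    rw [show (monomial γ.1 (coeff γ.1 P) : MvPolynomial V E) = C (coeff γ.1 P) * monomial γ.1 1 by
      rw [C_mul_monomial, mul_one]]
    exact Ideal.mul_mem_left _ _ (hmono γ)

end Pool.Agent.Q38.GF
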