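import Mathlib

/-!
# Tuples of forms with a point of large Jacobian corank

`n + 1` forms of degree `d` in `n` variables, in a normal form at a point where the Jacobian matrix
has corank `r`; the fibre through this point is long, so the powers of the ideal generated by the
forms miss many forms in all degrees.
-/

open MvPolynomial

namespace Pool.Agent.Q38.GF

variable {K : Type*} [Field K] {r : ℕ} {U : Type*}

/-- The ideal generated by all variables but the variable `none`. -/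
noncomputable def J (K : Type*) [Field K] (r : ℕ) (U : Type*) :
    Ideal (MvPolynomial (Option (Fin r ⊕ U)) K) :=
  Ideal.span (Set.range fun v : Fin r ⊕ U => X (some v))

/-- The homomorphism with `X none ↦ 1`, `X a ↦ X a` and `X u ↦ ψ u`. -/
noncomputable def L (ψ : U → MvPolynomial (Fin r) K) :
    MvPolynomial (Option (Fin r ⊕ U)) K →ₐ[K] MvPolynomial (Fin r) K :=
  aeval (fun v => match v with
    | none => 1
    | some (Sum.inl a) => X a
    | some (Sum.inr u) => ψ u)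

@[simp] lemma L_none (ψ : U → MvPolynomial (Fin r) K) : L ψ (X none) = 1 := by
  simp [L]

@[simp] lemma L_inl (ψ : U → MvPolynomial (Fin r) K) (a : Fin r) :
    L ψ (X (some (Sum.inl a))) = X a := by
  simp [L]

@[simp] lemma L_inr (ψ : U → MvPolynomial (Fin r) K) (u : U) :
    L ψ (X (some (Sum.inr u))) = ψ u := by
  simp [L]

lemma L_mem (ψ : U → MvPolynomial (Fin r) K) (hψ : ∀ u, ψ u ∈ idealOfVars (Fin r) K) :
    J K r U ≤ (idealOfVars (Fin r) K).comap (L ψ) := by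
  rw [J, Ideal.span_le]
  rintro _ ⟨v, rfl⟩
  rcases v with a | u
  · simp only [SetLike.mem_coe, Ideal.mem_comap, L_inl]
    exact Ideal.subset_span ⟨a, rfl⟩
  · simp only [SetLike.mem_coe, Ideal.mem_comap, L_inr]
    exact hψ u

lemma L_mem_sq (ψ : U → MvPolynomial (Fin r) K) (hψ : ∀ u, ψ u ∈ idealOfVars (Fin r) K)
    (P : MvPolynomial (Option (Fin r ⊕ U)) K) (hP : P ∈ J K r U ^ 2) :
    L ψ P ∈ idealOfVars (Fin r) K ^ 2 := by
  have h := (Ideal.pow_right_mono (L_mem ψ hψ) 2).trans (Ideal.le_comap_pow (L ψ) 2)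
  exact h hP

lemma L_sub (ψ ψ' : U → MvPolynomial (Fin r) K) (q : ℕ)
    (h : ∀ u, ψ u - ψ' u ∈ idealOfVars (Fin r) K ^ q)
    (P : MvPolynomial (Option (Fin r ⊕ U)) K) :
    L ψ P - L ψ' P ∈ idealOfVars (Fin r) K ^ q := by
  have : (Ideal.Quotient.mkₐ K (idealOfVars (Fin r) K ^ q)).comp (L ψ) =
      (Ideal.Quotient.mkₐ K (idealOfVars (Fin r) K ^ q)).comp (L ψ') := by
    apply MvPolynomial.algHom_ext
    intro v
    rcases v with _ | a | u
    · simp
    · simp
    · simp only [AlgHom.comp_apply, L_inr, Ideal.Quotient.mkₐ_eq_mk]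
      rw [Ideal.Quotient.eq]
      exact h u
  have h2 := DFunLike.congr_fun this P
  simp only [AlgHom.comp_apply, Ideal.Quotient.mkₐ_eq_mk] at h2
  rwa [Ideal.Quotient.eq] at h2

lemma L_sub_sq (ψ ψ' : U → MvPolynomial (Fin r) K) (q : ℕ)
    (hψ : ∀ u, ψ u ∈ idealOfVars (Fin r) K) (hψ' : ∀ u, ψ' u ∈ idealOfVars (Fin r) K)
    (h : ∀ u, ψ u - ψ' u ∈ idealOfVars (Fin r) K ^ q)
    (P : MvPolynomial (Option (Fin r ⊕ U)) K) (hP : P ∈ J K r U ^ 2) :
    L ψ P - L ψ' P ∈ idealOfVars (Fin r) K ^ (q + 1) := by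
  rw [pow_two] at hP
  induction hP using Submodule.mul_induction_on' with
  | mem_mul_mem a ha b hb =>
    have e : L ψ (a * b) - L ψ' (a * b) = (L ψ a - L ψ' a) * L ψ b + (L ψ b - L ψ' b) * L ψ' a := by
      simp only [map_mul]; ring
    rw [e]
    refine Ideal.add_mem _ ?_ ?_
    · rw [pow_succ]
      exact Ideal.mul_mem_mul (L_sub ψ ψ' q h a) (L_mem ψ hψ hb)
    · rw [pow_succ]
      exact Ideal.mul_mem_mul (L_sub ψ ψ' q h b) (L_mem ψ' hψ' ha)
  | add x _ y _ hx hy =>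
    have e : L ψ (x + y) - L ψ' (x + y) = (L ψ x - L ψ' x) + (L ψ y - L ψ' y) := by
      simp only [map_add]; ring
    rw [e]
    exact Ideal.add_mem _ hx hy

/-- Elimination of the variables in `U` up to any order. -/
lemma exists_psi (ρ : U → MvPolynomial (Option (Fin r ⊕ U)) K) (hρ : ∀ u, ρ u ∈ J K r U ^ 2)
    (q : ℕ) : ∃ ψ : U → MvPolynomial (Fin r) K, (∀ u, ψ u ∈ idealOfVars (Fin r) K) ∧
      ∀ u, ψ u + L ψ (ρ u) ∈ idealOfVars (Fin r) K ^ q := by
  induction q with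
  | zero => exact ⟨fun _ => 0, fun _ => Ideal.zero_mem _, fun u => by simp⟩
  | succ q ih =>
    obtain ⟨ψ, h1, h2⟩ := ih
    have h3 : ∀ u, -L ψ (ρ u) ∈ idealOfVars (Fin r) K := fun u =>
      Ideal.neg_mem_iff _ |>.2 (Ideal.pow_le_self (two_ne_zero) (L_mem_sq ψ h1 _ (hρ u)))
    refine ⟨fun u => -L ψ (ρ u), h3, fun u => ?_⟩
    have h4 : ∀ u, -L ψ (ρ u) - ψ u ∈ idealOfVars (Fin r) K ^ q := fun u => by
      have : -L ψ (ρ u) - ψ u = -(ψ u + L ψ (ρ u)) := by ring
      rw [this]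
      exact Ideal.neg_mem_iff _ |>.2 (h2 u)
    have h5 := L_sub_sq (fun u => -L ψ (ρ u)) ψ q h3 h1 h4 (ρ u) (hρ u)
    have : -L ψ (ρ u) + L (fun u => -L ψ (ρ u)) (ρ u) =
      L (fun u => -L ψ (ρ u)) (ρ u) - L ψ (ρ u) := by ring
    rw [this]
    exact h5

end Pool.Agent.Q38.GF
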